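import Pool.Agent.N353.PT.Stm

/-!
# Project PT (helper353): vertices of low degree (helper953)
-/

set_option autoImplicit false

open Finset
open scoped Classical

namespace Pool.Agent.N953.PT

open Pool.Agent.N353.PT

lemma low {V : Type} (f : V → ℕ) (U : Finset V) (m : ℕ) (h1 : 1 ≤ m) (h2 : m ≤ U.card) :
    ∃ (X : Finset V) (δ : ℕ) (v0 : V), X ⊆ U ∧ X.card = m ∧ (∀ v ∈ X, f v ≤ δ) ∧ v0 ∈ X ∧ f v0 = δ ∧
      ∀ v ∈ U, v ∉ X → δ ≤ f v := by
  induction m, h1 using Nat.le_induction with
  | base =>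
    obtain ⟨x, hx, hmin⟩ := Finset.exists_min_image U f (Finset.card_pos.1 (by omega))
    refine ⟨{x}, f x, x, ?_, Finset.card_singleton x, ?_, Finset.mem_singleton_self x, rfl, ?_⟩
    · intro y hy
      rw [Finset.mem_singleton.1 hy]
      exact hx
    · intro v hv
      rw [Finset.mem_singleton.1 hv]
    · intro v hv _
      exact hmin v hv
  | succ m hm ih =>
    obtain ⟨X, δ, v0, hX, hc, hlo, hv0, hd, hhi⟩ := ih (by omega)
    have hne : (U \ X).Nonempty := by
      rw [← Finset.card_pos, Finset.card_sdiff_of_subset hX]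
      omega
    obtain ⟨y, hy, hmin⟩ := Finset.exists_min_image (U \ X) f hne
    rw [Finset.mem_sdiff] at hy
    refine ⟨insert y X, f y, y, ?_, ?_, ?_, Finset.mem_insert_self y X, rfl, ?_⟩
    · exact Finset.insert_subset hy.1 hX
    · rw [Finset.card_insert_of_notMem hy.2, hc]
    · intro v hv
      rcases Finset.mem_insert.1 hv with rfl | hv
      · exact le_rfl
      · exact (hlo v hv).trans (hhi y hy.1 hy.2)
    · intro v hv hvn
      rw [Finset.mem_insert, not_or] at hvn
      exact hmin v (Finset.mem_sdiff.2 ⟨hv, hvn.2⟩)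

lemma half {V : Type} [Fintype V] (T : V → V → Prop) (X0 : Finset V) (m : ℕ) (hm : 1 ≤ m)
    (hc : X0.card + 2 * m ≤ Fintype.card V) (Xf Xg : Finset V) (df dg : ℕ) (vg : V)
    (f1 : Xf ⊆ univ \ X0) (f2 : Xf.card = m) (f3 : ∀ v ∈ Xf, (inN T v).card ≤ df)
    (f4 : ∀ v ∈ univ \ X0, v ∉ Xf → df ≤ (inN T v).card)
    (g2 : Xg.card = m) (g5 : vg ∈ Xg) (g6 : (outN T vg).card = dg)
    (g4 : ∀ v ∈ univ \ X0, v ∉ Xg → dg ≤ (outN T v).card) (hle : df ≤ dg) :
    ∃ XA XB δA δB, Lo T X0 m XA XB δA δB := by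
  have hU : (univ \ X0).card = Fintype.card V - X0.card := by
    rw [Finset.card_sdiff_of_subset (Finset.subset_univ _), Finset.card_univ]
  have hUX : ((univ \ X0) \ Xf).card = Fintype.card V - X0.card - m := by
    rw [Finset.card_sdiff_of_subset f1, hU, f2]
  obtain ⟨XB, dB, vB, b1, b2, b3, b5, b6, b4⟩ := low (fun v => (outN T v).card) ((univ \ X0) \ Xf) m hm
    (by omega)
  have hdB : dg ≤ dB := by
    by_contra hcon
    push Not at hcon
    have hsub : XB ⊆ Xg.erase vg := by
      intro v hv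
      have h1 := b3 v hv
      have h2 := b1 hv
      rw [Finset.mem_sdiff] at h2
      rw [Finset.mem_erase]
      constructor
      · rintro rfl
        omega
      · by_contra hn
        have := g4 v h2.1 hn
        omega
    have h3 := Finset.card_le_card hsub
    rw [Finset.card_erase_of_mem g5] at h3
    omega
  refine ⟨Xf, XB, df, dB, f2, b2, ?_, ?_, ?_, hle.trans hdB, f3, ?_, b3, ?_⟩
  · rw [Finset.disjoint_right]
    intro v hv
    have := f1 hv
    rw [Finset.mem_sdiff] at this
    exact this.2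
  · rw [Finset.disjoint_right]
    intro v hv
    have := b1 hv
    rw [Finset.mem_sdiff, Finset.mem_sdiff] at this
    exact this.1.2
  · rw [Finset.disjoint_right]
    intro v hv
    have := b1 hv
    rw [Finset.mem_sdiff] at this
    exact this.2
  · intro v h1 h2
    exact f4 v (Finset.mem_sdiff.2 ⟨Finset.mem_univ v, h1⟩) h2
  · intro v h1 h2 h3
    exact b4 v (Finset.mem_sdiff.2 ⟨Finset.mem_sdiff.2 ⟨Finset.mem_univ v, h1⟩, h2⟩) h3

theorem t_SEL : S_SEL := by
  intro V _ T X0 m hm hc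
  have hU : (univ \ X0).card = Fintype.card V - X0.card := by
    rw [Finset.card_sdiff_of_subset (Finset.subset_univ _), Finset.card_univ]
  obtain ⟨Xf, df, vf, f1, f2, f3, f5, f6, f4⟩ := low (fun v => (inN T v).card) (univ \ X0) m hm (by omega)
  obtain ⟨Xg, dg, vg, g1, g2, g3, g5, g6, g4⟩ := low (fun v => (outN T v).card) (univ \ X0) m hm (by omega)
  rcases le_or_gt df dg with h | h
  · left
    exact half T X0 m hm hc Xf Xg df dg vg f1 f2 f3 f4 g2 g5 g6 g4 h
  · right
    exact half (fun u v => T v u) X0 m hm hc Xg Xf dg df vf g1 g2 g3 g4 f2 f5 f6 f4 h.le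

end Pool.Agent.N953.PT
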